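import Mathlib
import Pool.Agent.V11304.EC.Asum

/-!
# MP_ec79a8_nt, Q1 (affirmative answer)

For every prime `p ≡ 2 (mod 3)`, with `m = (p+1)/3`,
`a(0) + ... + a(p-1) ≡ 2p / C(2m,m) (mod p²)`.
-/

namespace Pool.Agent.Results.MP_ec79a8_nt.Full

/-- `a(n) = ∑_{j=0}^n C(n,j) C(n-j,j) C(n+j,j)`. -/
def a (n : ℕ) : ℕ :=
  ∑ j ∈ Finset.range (n + 1), n.choose j * (n - j).choose j * (n + j).choose j

/-- For every prime `p ≡ 2 (mod 3)` and `m = (p+1)/3`, the rational number
`∑_{k<p} a(k) - 2p/C(2m,m)` equals `p² u / v` with integers `u, v`, `p ∤ v`. -/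
theorem result : ∀ p : ℕ, p.Prime → p % 3 = 2 →
    ∃ u v : ℤ, ¬ (p : ℤ) ∣ v ∧
      ((∑ k ∈ Finset.range p, a k : ℕ) : ℚ) -
        2 * p / (((2 * ((p + 1) / 3)).choose ((p + 1) / 3) : ℕ) : ℚ) = (p : ℚ) ^ 2 * u / v := by
  intro p hp h3
  rcases Nat.lt_or_ge p 5 with h5 | h5
  · have hp2 : p = 2 := by
      have := hp.two_le
      interval_cases p
      · rfl
      · omega
      · omega
    subst hp2
    refine ⟨0, 1, by decide, ?_⟩
    have e1 : ∑ k ∈ Finset.range 2, a k = 2 := by decide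
    have e2 : (2 * ((2 + 1) / 3)).choose ((2 + 1) / 3) = 2 := by decide
    rw [e1, e2]
    norm_num
  · have : Fact p.Prime := ⟨hp⟩
    obtain ⟨n, hn⟩ : ∃ n, p = 2 * n + 1 := by
      have ho : Odd p := hp.odd_of_ne_two (by omega)
      obtain ⟨n, hn⟩ := ho
      exact ⟨n, hn⟩
    set m := (p + 1) / 3 with hm
    have hm3 : p + 1 = 3 * m := by omega
    obtain ⟨z, hz⟩ := Pool.Agent.V11304.EC.main hn hm3
    have hv : ¬ (p : ℤ) ∣ (((2 * m).choose m : ℕ) : ℤ) := by
      intro h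
      have h1 : p ∣ (2 * m).choose m := by exact_mod_cast h
      have h2 : p ∣ (2 * m).factorial := by
        rw [← Nat.choose_mul_factorial_mul_factorial (show m ≤ 2 * m by omega)]
        exact dvd_mul_of_dvd_left (dvd_mul_of_dvd_left h1 _) _
      have h3 := (hp.dvd_factorial).mp h2
      omega
    refine ⟨z, (((2 * m).choose m : ℕ) : ℤ), hv, ?_⟩
    have hne : (((2 * m).choose m : ℕ) : ℚ) ≠ 0 := by
      have : 0 < (2 * m).choose m := Nat.choose_pos (by omega)
      exact_mod_cast this.ne'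
    have hS : ∑ k ∈ Finset.range p, a k =
        ∑ k ∈ Finset.range p, ∑ j ∈ Finset.range (k + 1), Pool.Agent.V11304.EC.tm k j := rfl
    rw [← hS] at hz
    have hzq := congrArg (fun t : ℤ => (t : ℚ)) hz
    simp only [Int.cast_sub, Int.cast_mul, Int.cast_natCast, Int.cast_ofNat, Int.cast_pow] at hzq
    rw [Int.cast_natCast, eq_div_iff hne, sub_mul, div_mul_cancel₀ _ hne]
    linear_combination hzq

end Pool.Agent.Results.MP_ec79a8_nt.Full
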